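import Pool.Agent.H923R2.FZ.Defs

/-! Statements of the tasks, wave 1: general theory. -/

set_option autoImplicit false

open scoped ComplexConjugate

noncomputable section

namespace Pool.Agent.H923R2.FZ

open Pool.Agent.H923R2.FP

/-! ### stable rank one, polar decomposition -/

/-- `1 - UV` invertible iff `1 - VU` invertible, in the form used for `z - z α P⁻¹ β z + β₀* α₀` -/
def S_INV : Prop := ∀ (B : Type) [CStarAlgebra B] (z b e e0 : B), IsUnit z → PC e → PC e0 →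
  Commute e e0 → star b * b * e = e → ∀ (r r0 : B), PC r → PC r0 → r * r = e → r0 * r0 = e0 →
  Commute r r0 → Commute e r0 → Commute r e0 → star b * b * r = r → star b * b * r0 = r0 →
  ∀ P : B, P = 1 - e + r * star b * z * r → IsUnit P →
  ∀ a a' : B, a = 1 - e + e * e0 → a * a' = 1 → a' * a = 1 → Commute a' r → Commute a' r0 →
  Commute a' e → Commute a' e0 →
  ‖r0 * Ring.inverse z * b * r0 * (1 - e) * a'‖ < 1 →
  IsUnit (z - z * r * Ring.inverse P * r * star b * z + b * e0)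

/-- the exact unitary polar decomposition from the ball form of stable rank one -/
def S_R0 : Prop := ∀ (B : Type) [CStarAlgebra B], SRb B → PED B

/-- stable rank one from the exact unitary polar decomposition -/
def S_R0b : Prop := ∀ (B : Type) [CStarAlgebra B], PED B → SR B

/-- stable rank one passes to `{b : k b = b = b k} + ℂ` -/
def S_R1a : Prop := ∀ (B : Type) [CStarAlgebra B], SR B → ∀ (k x : B), IsSelfAdjoint k →
  k * x = x → x * k = x → ∀ (l ε : ℝ), 0 < l → 0 < ε →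
  ∃ y : B, IsUnit y ∧ (1 - k) * y = (l : ℂ) • (1 - k) ∧ y * (1 - k) = (l : ℂ) • (1 - k) ∧
    ‖y - ((l : ℂ) • 1 + x)‖ < ε

/-- the exact unitary polar decomposition in `{b : k b = b = b k}` -/
def S_R1 : Prop := ∀ (B : Type) [CStarAlgebra B], SR B → PEDH B

/-- a factorisation: if `‖g₁ U (1-k)‖ < 1` and `g₁ g = g` then `g = x* x` with `x` under `k` -/
def S_FACT : Prop := ∀ (B : Type) [CStarAlgebra B] (g g1 k : B) (U : unitary B), PC g → PC g1 →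
  PC k → g1 * g = g → ‖g1 * (U : B) * (1 - k)‖ < 1 →
  ∃ x : B, star x * x = g ∧ ∀ k1 : B, k1 * k = k → k1 * x = x

/-- the moving lemma -/
def S_MV : Prop := ∀ (B : Type) [CStarAlgebra B] (τ : B →ₗ[ℂ] ℂ), FTS τ → FC τ → PED B →
  PEDH B → MV τ

/-! ### positive elements with the same law -/

/-- the chain -/
def S_POSI : Prop := ∀ (B : Type) [CStarAlgebra B] (τ : B →ₗ[ℂ] ℂ), FTS τ → MV τ →
  ∀ (a b : B) (L : ℕ), PC a → PC b → 30 ≤ L → SL τ a b →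
  (∀ j, j + 1 < L → (τ (cfc (chi L j) a)).re < (τ (cfc (chi L (j + 1)) a)).re) →
  ∃ u v : unitary B, ∀ j, j + 20 < L →
    cfc (chi L (j + 20)) ((v : B) * b * star (v : B)) *
      cfc (chi L j) ((u : B) * a * star (u : B)) = cfc (chi L j) ((u : B) * a * star (u : B)) ∧
    cfc (chi L (j + 20)) ((u : B) * a * star (u : B)) *
      cfc (chi L j) ((v : B) * b * star (v : B)) = cfc (chi L j) ((v : B) * b * star (v : B))

/-- interlacing levels imply closeness -/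
def S_POSE : Prop := ∀ (B : Type) [CStarAlgebra B] (x y : B) (L : ℕ), PC x → PC y → 30 ≤ L →
  (∀ j, j + 20 < L → cfc (chi L (j + 20)) y * cfc (chi L j) x = cfc (chi L j) x ∧
    cfc (chi L (j + 20)) x * cfc (chi L j) y = cfc (chi L j) y) → ‖x - y‖ ≤ 20 / L

/-- positive contractions with the same law, of full support, are approximately unitarily
equivalent -/
def S_POS : Prop := ∀ (B : Type) [CStarAlgebra B] (τ : B →ₗ[ℂ] ℂ), FTS τ → MV τ →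
  ∀ (a b : B), PC a → PC b → SL τ a b → FSl τ a → ∀ ε : ℝ, 0 < ε →
  ∃ u : unitary B, ‖(u : B) * a * star (u : B) - b‖ < ε

/-! ### order zero maps and Rørdam–Winter systems -/

/-- order zero maps -/
def S_OZ : Prop := ∀ (B : Type) [CStarAlgebra B], PED B → ∀ (n : ℕ)
  (φ : Fin (n + 1) → Fin (n + 1) → B) (v : B), RWS n φ v →
  ∀ (f : B) (g : Fin (n + 1) → B), PC f → (∀ i, PC (g i)) → (∀ i j, i ≠ j → g i * g j = 0) →
  ∀ ε : ℝ, 0 < ε → ∃ δ : ℝ, 0 < δ ∧ ∀ (W : unitary B) (w : Fin (n + 1) → unitary B),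
    ‖(W : B) * φ 0 0 * star (W : B) - f‖ < δ →
    (∀ i, ‖(w i : B) * f * star (w i : B) - g i‖ < δ) →
    ∃ u : unitary B, ∀ i j,
      ‖(u : B) * φ i j * star (u : B) - (w i : B) * f * star (w j : B)‖ < ε

/-- the element `v` -/
def S_VST : Prop := ∀ (B : Type) [CStarAlgebra B], PEDH B → ∀ (n : ℕ)
  (φ : Fin (n + 1) → Fin (n + 1) → B) (v : B), RWS n φ v →
  ∀ ε : ℝ, 0 < ε → ∃ δ : ℝ, 0 < δ ∧ ∀ v0 : B, ‖star v0 * v0 - star v * v‖ < δ →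
    ‖φ 0 0 * v0 - v0‖ < δ →
    ∃ u : unitary B, (∀ i j, ‖(u : B) * φ i j * star (u : B) - φ i j‖ < ε) ∧
      ‖(u : B) * v * star (u : B) - v0‖ < ε

/-- `1` above `s + d`, `0` below `s` -/
def cut (s d t : ℝ) : ℝ := max 0 (min 1 ((t - s) / d))

/-- existence of `v` in an algebra with free comparison -/
def S_V0 : Prop := ∀ (A : Type) [CStarAlgebra A] (τ : A →ₗ[ℂ] ℂ), FTS τ → FC τ →
  ∀ (c f : A) (δ : ℝ), PC c → PC f → 0 < δ → δ < 1 →
  (τ (cfc (cut (δ / 4) (δ / 4)) c)).re < (τ (cfc (cut (1 - δ) (δ / 2)) f)).re →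
  ∃ v : A, ‖star v * v - c‖ ≤ δ ∧ ‖f * v - v‖ ≤ δ

/-- laws of a Rørdam–Winter system -/
def S_LAWV : Prop := ∀ (B : Type) [CStarAlgebra B] (τ : B →ₗ[ℂ] ℂ), FTS τ → ∀ (n : ℕ)
  (φ : Fin (n + 1) → Fin (n + 1) → B) (v : B), RWS n φ v → FSl τ (∑ m, φ m m) →
  FSl τ (φ 0 0) ∧
  (∀ F : ℝ → ℝ, Continuous F → F 0 = 0 →
    τ (cfc F (∑ m, φ m m)) = ((n : ℂ) + 1) * τ (cfc F (φ 0 0))) ∧
  ∀ δ : ℝ, 0 < δ → δ < 1 →
    (τ (cfc (cut (δ / 4) (δ / 4)) (1 - ∑ m, φ m m))).re <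
      (τ (cfc (cut (1 - δ) (δ / 2)) (φ 0 0))).re

/-- the law as a measure -/
def S_MEAS : Prop := ∀ (B : Type) [CStarAlgebra B] (τ : B →ₗ[ℂ] ℂ), FTS τ → ∀ a : B, PC a →
  ∃ μ : MeasureTheory.Measure ℝ, MeasureTheory.IsProbabilityMeasure μ ∧
    μ (Set.Icc 0 1) = 1 ∧ ∀ F : ℝ → ℝ, Continuous F → τ (cfc F a) = ((∫ s, F s ∂μ : ℝ) : ℂ)

/-- orthogonal functions on `[0,1]` with a given law -/
def S_QN : Prop := ∀ (μ : MeasureTheory.Measure ℝ) [MeasureTheory.IsProbabilityMeasure μ],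
  μ (Set.Icc 0 1) = 1 → (∀ s s' : ℝ, 0 ≤ s → s < s' → s' ≤ 1 → 0 < μ (Set.Ioo s s')) →
  ∀ n : ℕ, (n + 1) * μ (Set.Ioi 0) ≤ 1 →
  ∃ f : Fin (n + 1) → C(unitInterval, ℝ), (∀ i x, f i x ∈ Set.Icc (0 : ℝ) 1) ∧
    (∀ i j, i ≠ j → ∀ x, f i x * f j x = 0) ∧
    ∀ i, ∀ F : ℝ → ℝ, Continuous F → ∫ x : unitInterval, F (f i x) = ∫ s, F s ∂μ

/-- orthogonal functions on `[0,1]` with the law of `φ(e₁₁)` -/
def S_QNT : Prop := ∀ (B : Type) [CStarAlgebra B] (τ : B →ₗ[ℂ] ℂ), FTS τ → ∀ (n : ℕ)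
  (φ : Fin (n + 1) → Fin (n + 1) → B) (v : B), RWS n φ v → FSl τ (∑ m, φ m m) →
  ∃ f : Fin (n + 1) → C(unitInterval, ℝ), (∀ i x, f i x ∈ Set.Icc (0 : ℝ) 1) ∧
    (∀ i j, i ≠ j → ∀ x, f i x * f j x = 0) ∧
    ∀ i, ∀ F : ℝ → ℝ, Continuous F → ((∫ x : unitInterval, F (f i x) : ℝ) : ℂ) = τ (cfc F (φ 0 0))

/-- a Rørdam–Winter system of `B` is approximately unitarily conjugate into `A` -/
def S_CONJ : Prop := ∀ (A B : Type) [CStarAlgebra A] [CStarAlgebra B] (τA : A →ₗ[ℂ] ℂ)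
  (τB : B →ₗ[ℂ] ℂ), FTS τA → FTS τB → FC τA → PED A → MV τA → PED B → PEDH B → MV τB →
  ∀ (ι : A →⋆ₐ[ℂ] B), (∀ x, τB (ι x) = τA x) → ∀ f0 : C(unitInterval, ℂ) →⋆ₐ[ℂ] A,
  (∀ x, τA (f0 x) = leb x) → ∀ (n : ℕ)
  (φ : Fin (n + 1) → Fin (n + 1) → B) (v : B), RWS n φ v → FSl τB (∑ m, φ m m) →
  ∀ ε : ℝ, 0 < ε → ∃ u : unitary B,
    (∀ i j, ∃ y : A, ‖(u : B) * φ i j * star (u : B) - ι y‖ < ε) ∧
    ∃ y : A, ‖(u : B) * v * star (u : B) - ι y‖ < ε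

/-! ### free Haar unitaries -/

/-- the norm estimate for a free Haar unitary -/
def S_RDG : Prop := ∀ (B : Type) [CStarAlgebra B] (τ : B →ₗ[ℂ] ℂ), FTS τ →
  ∀ (S : StarSubalgebra ℂ B) (u : unitary B), (∀ n : ℤ, n ≠ 0 → τ ((u ^ n : unitary B) : B) = 0) →
  FreeFam τ (fun b : Bool => if b then S else StarAlgebra.adjoin ℂ {(u : B)}) →
  ∀ b ∈ S, ∀ k : ℕ, ‖((u : B) * b) ^ (k + 1)‖ ≤ (k + 2) * ‖b‖ * nt τ b ^ k

/-- stable rank one from free Haar unitaries -/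
def S_SRB : Prop := ∀ (B : Type) [CStarAlgebra B] (τ : B →ₗ[ℂ] ℂ), FTS τ → HU τ → SRb B

/-- product of two free positive contractions -/
def S_FR2 : Prop := ∀ (B : Type) [CStarAlgebra B] (τ : B →ₗ[ℂ] ℂ), FTS τ →
  ∀ (S T : StarSubalgebra ℂ B), FreeFam τ (fun b : Bool => if b then S else T) →
  ∀ g ∈ S, ∀ k ∈ T, PC g → PC k → (τ (g * g)).re + (τ (k * k)).re < 1 →
  ‖g * k‖ ≤ 1 - (1 - (τ (g * g)).re - (τ (k * k)).re) ^ 2 / 1000

/-- conjugation by a free Haar unitary -/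
def S_CJF : Prop := ∀ (B : Type) [CStarAlgebra B] (τ : B →ₗ[ℂ] ℂ), FTS τ →
  ∀ (S : StarSubalgebra ℂ B) (u : unitary B), (∀ n : ℤ, n ≠ 0 → τ ((u ^ n : unitary B) : B) = 0) →
  FreeFam τ (fun b : Bool => if b then S else StarAlgebra.adjoin ℂ {(u : B)}) →
  FreeFam τ (fun b : Bool => if b then S else
    S.map ((Unitary.conjStarAlgAut ℂ B u : B ≃⋆ₐ[ℂ] B) : B →⋆ₐ[ℂ] B))

/-- free comparison from free Haar unitaries -/
def S_FCB : Prop := ∀ (B : Type) [CStarAlgebra B] (τ : B →ₗ[ℂ] ℂ), FTS τ → HU τ → FC τ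

end Pool.Agent.H923R2.FZ
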