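import Pool.Agent.H923R2.FZ.Stubs3

/-! Dimension drop algebras, the Jiang–Su algebra, reduced free products; statements, wave 4. -/

set_option autoImplicit false

open scoped ComplexConjugate ComplexOrder Kronecker Matrix.Norms.L2Operator

noncomputable section

namespace Pool.Agent.H923R2.FZ

open Pool.Agent.H923R2.FP

/-- the dimension drop algebra `Z_{p,q}`: continuous functions `f : [0,1] → M_p ⊗ M_q` with
`f(0) ∈ M_p ⊗ 1` and `f(1) ∈ 1 ⊗ M_q` -/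
def ddrop (p q : ℕ) :
    StarSubalgebra ℂ C(unitInterval, Matrix (Fin p × Fin q) (Fin p × Fin q) ℂ) where
  carrier := {f | (∃ a : Matrix (Fin p) (Fin p) ℂ, f 0 = a ⊗ₖ (1 : Matrix (Fin q) (Fin q) ℂ)) ∧
    ∃ b : Matrix (Fin q) (Fin q) ℂ, f 1 = (1 : Matrix (Fin p) (Fin p) ℂ) ⊗ₖ b}
  mul_mem' := by
    rintro f g ⟨⟨a, ha⟩, b, hb⟩ ⟨⟨a', ha'⟩, b', hb'⟩
    refine ⟨⟨a * a', ?_⟩, b * b', ?_⟩
    · rw [ContinuousMap.mul_apply, ha, ha', ← Matrix.mul_kronecker_mul, one_mul]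
    · rw [ContinuousMap.mul_apply, hb, hb', ← Matrix.mul_kronecker_mul, one_mul]
  add_mem' := by
    rintro f g ⟨⟨a, ha⟩, b, hb⟩ ⟨⟨a', ha'⟩, b', hb'⟩
    refine ⟨⟨a + a', ?_⟩, b + b', ?_⟩
    · rw [ContinuousMap.add_apply, ha, ha', Matrix.add_kronecker]
    · rw [ContinuousMap.add_apply, hb, hb', Matrix.kronecker_add]
  algebraMap_mem' := by
    intro r
    refine ⟨⟨r • 1, ?_⟩, r • 1, ?_⟩
    · rw [Algebra.algebraMap_eq_smul_one, ContinuousMap.smul_apply, ContinuousMap.one_apply,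
        Matrix.smul_kronecker, Matrix.one_kronecker_one]
    · rw [Algebra.algebraMap_eq_smul_one, ContinuousMap.smul_apply, ContinuousMap.one_apply,
        Matrix.kronecker_smul, Matrix.one_kronecker_one]
  star_mem' := by
    rintro f ⟨⟨a, ha⟩, b, hb⟩
    refine ⟨⟨star a, ?_⟩, star b, ?_⟩
    · rw [ContinuousMap.star_apply, ha, Matrix.star_eq_conjTranspose,
        Matrix.conjTranspose_kronecker, Matrix.conjTranspose_one, Matrix.star_eq_conjTranspose]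
    · rw [ContinuousMap.star_apply, hb, Matrix.star_eq_conjTranspose,
        Matrix.conjTranspose_kronecker, Matrix.conjTranspose_one, Matrix.star_eq_conjTranspose]

/-- tracial state -/
def IsTS {A : Type} [CStarAlgebra A] (t : A →ₗ[ℂ] ℂ) : Prop :=
  t 1 = 1 ∧ (∀ x y, t (x * y) = t (y * x)) ∧ ∀ x, 0 ≤ t (star x * x)

/-- `Z` is the Jiang–Su algebra: a simple unital C*-algebra with a unique tracial state which is
the closure of an increasing union of copies of the prime dimension drop algebras `Z_{n,n+1}`,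
`n → ∞` -/
structure IsJS (Z : Type) [CStarAlgebra Z] : Prop where
  nontrivial : Nontrivial Z
  simple : ∀ I : TwoSidedIdeal Z, IsClosed (I : Set Z) → I = ⊥ ∨ I = ⊤
  trace : ∃! t : Z →ₗ[ℂ] ℂ, IsTS t
  lim : ∃ (n : ℕ → ℕ) (D : ℕ → StarSubalgebra ℂ Z), Filter.Tendsto n Filter.atTop Filter.atTop ∧
    Monotone D ∧ (∀ k, Nonempty (D k ≃⋆ₐ[ℂ] ddrop (n k + 1) (n k + 2))) ∧
    (⨆ k, D k).topologicalClosure = ⊤

/-- `(A, φ)` with the embeddings `e` is the reduced free product of the `(D j, t j)`: `φ` is a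
state, extends the `t j`, the copies are free and generate `A`, and the GNS representation of `φ`
is faithful -/
structure IsRFP {J : Type} (D : J → Type) [∀ j, CStarAlgebra (D j)] (t : ∀ j, D j → ℂ)
    {A : Type} [CStarAlgebra A] (φ : A →ₗ[ℂ] ℂ) (e : ∀ j, D j →⋆ₐ[ℂ] A) : Prop where
  one : φ 1 = 1
  nonneg : ∀ x, 0 ≤ φ (star x * x)
  tr : ∀ j x, φ (e j x) = t j x
  free : ∀ w : List (Σ j, D j), w ≠ [] → w.IsChain (fun a b => a.1 ≠ b.1) →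
    (∀ z ∈ w, t z.1 z.2 = 0) → φ ((w.map fun z => e z.1 z.2).prod) = 0
  gen : (StarAlgebra.adjoin ℂ (⋃ j, Set.range (e j))).topologicalClosure = ⊤
  gns : ∀ a, (∀ x, φ (star (a * x) * (a * x)) = 0) → a = 0

/-! ### statements -/

/-- a reduced free product of tracial states -/
def S_GNSF : Prop := ∀ (J : Type) (D : J → Type) [∀ j, CStarAlgebra (D j)] (t : ∀ j, D j → ℂ)
  (A : Type) [CStarAlgebra A] (φ : A →ₗ[ℂ] ℂ) (e : ∀ j, D j →⋆ₐ[ℂ] A),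
  (∀ j x y, t j (x * y) = t j (y * x)) → IsRFP D t φ e → RFP D t φ e

/-- converse -/
def S_GNSB : Prop := ∀ (J : Type) (D : J → Type) [∀ j, CStarAlgebra (D j)] (t : ∀ j, D j → ℂ)
  (A : Type) [CStarAlgebra A] (φ : A →ₗ[ℂ] ℂ) (e : ∀ j, D j →⋆ₐ[ℂ] A),
  RFP D t φ e → IsRFP D t φ e

/-- the trace of the Jiang–Su algebra is faithful -/
def S_FTZ : Prop := ∀ (Z : Type) [CStarAlgebra Z], IsJS Z → ∀ t : Z →ₗ[ℂ] ℂ, IsTS t → FTS t

/-- separability -/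
def S_SEPZ : Prop := ∀ (Z : Type) [CStarAlgebra Z], IsJS Z → TopologicalSpace.SeparableSpace Z

/-- the dimension drop algebra is closed -/
def S_DCL : Prop := ∀ p q : ℕ,
  IsClosed (ddrop p q : Set C(unitInterval, Matrix (Fin p × Fin q) (Fin p × Fin q) ℂ))

/-- the central function `x ↦ x` -/
def idf (p q : ℕ) : C(unitInterval, Matrix (Fin p × Fin q) (Fin p × Fin q) ℂ) :=
  ⟨fun x => ((x : ℝ) : ℂ) • (1 : Matrix (Fin p × Fin q) (Fin p × Fin q) ℂ), by fun_prop⟩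

/-- Stone–Weierstrass for subalgebras of the dimension drop algebra -/
def S_SW : Prop := ∀ (p q : ℕ)
  (E : StarSubalgebra ℂ C(unitInterval, Matrix (Fin p × Fin q) (Fin p × Fin q) ℂ)),
  idf p q ∈ E → (∀ f ∈ ddrop p q, ∀ x : unitInterval, ∃ g ∈ E, g x = f x) →
  ∀ f ∈ ddrop p q, ∀ ε : ℝ, 0 < ε → ∃ g ∈ E, ‖f - g‖ < ε

/-- the generators of `Z_{n+1,n+2}` -/
def S_ZGEN : Prop := ∀ n : ℕ,
  ∃ (φ : Fin (n + 1) → Fin (n + 1) → C(unitInterval,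
      Matrix (Fin (n + 1) × Fin (n + 2)) (Fin (n + 1) × Fin (n + 2)) ℂ))
    (v : C(unitInterval, Matrix (Fin (n + 1) × Fin (n + 2)) (Fin (n + 1) × Fin (n + 2)) ℂ)),
    (∀ i j, φ i j ∈ ddrop (n + 1) (n + 2)) ∧ v ∈ ddrop (n + 1) (n + 2) ∧ RWS n φ v ∧
    spectrum ℝ (∑ m, φ m m) = Set.Icc 0 1 ∧
    idf (n + 1) (n + 2) ∈ StarAlgebra.adjoin ℂ (Set.range (fun p : Fin (n + 1) × Fin (n + 1) =>
      φ p.1 p.2) ∪ {v}) ∧
    ∀ f ∈ ddrop (n + 1) (n + 2), ∀ x : unitInterval,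
      ∃ g ∈ StarAlgebra.adjoin ℂ (Set.range (fun p : Fin (n + 1) × Fin (n + 1) =>
        φ p.1 p.2) ∪ {v}), g x = f x

/-- the Jiang–Su algebra is locally approximated by Rørdam–Winter systems -/
def S_RWAZ : Prop := ∀ (Z : Type) [CStarAlgebra Z], IsJS Z → ∀ t : Z →ₗ[ℂ] ℂ, FTS t → RWA t

/-- a Lebesgue distributed element of the Jiang–Su algebra -/
def S_LEB : Prop := ∀ (Z : Type) [CStarAlgebra Z], IsJS Z → ∀ t : Z →ₗ[ℂ] ℂ, FTS t →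
  ∃ c : C(unitInterval, ℂ) →⋆ₐ[ℂ] Z, ∀ x, t (c x) = leb x

/-- `A` is a reduced free power, with at least two factors, of the Jiang–Su algebra `Z` or of
`(C([0,1]), Lebesgue)` -/
def InF (Z A : Type) [CStarAlgebra Z] [CStarAlgebra A] : Prop :=
  (∃ (k : ℕ) (t : Z →ₗ[ℂ] ℂ) (φ : A →ₗ[ℂ] ℂ) (e : Fin k → (Z →⋆ₐ[ℂ] A)), 2 ≤ k ∧ IsTS t ∧
    IsRFP (J := Fin k) (fun _ => Z) (fun _ => (t : Z → ℂ)) φ e) ∨
  ∃ (l : ℕ) (φ : A →ₗ[ℂ] ℂ) (e : Fin l → (C(unitInterval, ℂ) →⋆ₐ[ℂ] A)), 2 ≤ l ∧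
    IsRFP (J := Fin l) (fun _ => C(unitInterval, ℂ)) (fun _ => leb) φ e

/-- the main theorem -/
def S_FINAL : Prop := ∀ (Z : Type) [CStarAlgebra Z], IsJS Z →
  (∀ (k : ℕ) (t : Z →ₗ[ℂ] ℂ), IsTS t → ∃ (A : Type) (_ : CStarAlgebra A) (φ : A →ₗ[ℂ] ℂ)
    (e : Fin k → (Z →⋆ₐ[ℂ] A)), IsRFP (J := Fin k) (fun _ => Z) (fun _ => (t : Z → ℂ)) φ e) ∧
  (∀ l : ℕ, ∃ (A : Type) (_ : CStarAlgebra A) (φ : A →ₗ[ℂ] ℂ)
    (e : Fin l → (C(unitInterval, ℂ) →⋆ₐ[ℂ] A)),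
    IsRFP (J := Fin l) (fun _ => C(unitInterval, ℂ)) (fun _ => leb) φ e) ∧
  ∀ (A B : Type) [CStarAlgebra A] [CStarAlgebra B], InF Z A → InF Z B →
    Nonempty (A ≃⋆ₐ[ℂ] B)

end Pool.Agent.H923R2.FZ
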