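import Pool.Agent.H923R2.FZ.Stubs1

set_option autoImplicit false

open scoped ComplexConjugate

noncomputable section

namespace Pool.Agent.H923R2.FZ.T_CJF

open Pool.Agent.H923R2.FP Pool.Agent.H923R2.FZ

variable {B : Type} [CStarAlgebra B]

/-- expansion of a letter -/
def E (u : B) (z : Bool × B) : List (Bool × B) :=
  if z.1 then [z] else [(false, u), (true, star u * z.2 * u), (false, star u)]

lemma E_chain (u : B) (z : Bool × B) :
    (E u z).IsChain (fun x y => x.1 ≠ y.1) := by
  unfold E
  split_ifs
  · simp
  · simp

lemma E_head (u : B) (z x : Bool × B) (t : List (Bool × B)) (h : x ∈ (E u z ++ t).head?) :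
    x.1 = z.1 := by
  unfold E at h
  split_ifs at h with hz
  · simp at h
    rw [← h]
  · simp at h
    rw [← h]
    simpa using hz

lemma E_last (u : B) (z x : Bool × B) (h : x ∈ (E u z).getLast?) : x.1 = z.1 := by
  unfold E at h
  split_ifs at h with hz
  · simp at h
    rw [← h]
  · simp at h
    rw [← h]
    simpa using hz

lemma flat_head (u : B) (w : List (Bool × B)) (x : Bool × B) (h : x ∈ (w.flatMap (E u)).head?) :
    ∃ z ∈ w.head?, x.1 = z.1 := by
  cases w with
  | nil => simp at h
  | cons z t =>
    refine ⟨z, by simp, ?_⟩
    rw [List.flatMap_cons] at h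
    exact E_head u z x _ h

lemma flat_chain (u : B) (w : List (Bool × B)) (h : w.IsChain (fun x y => x.1 ≠ y.1)) :
    (w.flatMap (E u)).IsChain (fun x y => x.1 ≠ y.1) := by
  induction w with
  | nil => simp
  | cons z t ih =>
    rw [List.flatMap_cons, List.isChain_append]
    have ht : t.IsChain (fun x y => x.1 ≠ y.1) := h.tail
    refine ⟨E_chain u z, ih ht, ?_⟩
    intro x hx y hy
    obtain ⟨z', hz', hyz⟩ := flat_head u t y hy
    rw [E_last u z x hx, hyz]
    cases t with
    | nil => simp at hz'
    | cons a t' =>
      simp at hz'
      subst hz'
      rw [List.isChain_cons_cons] at h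
      exact h.1

theorem t_CJF : S_CJF := by
  intro B _ τ hτ S u hu hfree w hw hz hc
  have huu : (u : B) * star (u : B) = 1 := Unitary.mul_star_self_of_mem u.2
  have huu' : star (u : B) * (u : B) = 1 := Unitary.star_mul_self_of_mem u.2
  have hprod : ∀ w : List (Bool × B),
      (((w.flatMap (E (u : B))).map Prod.snd).prod) = (w.map Prod.snd).prod := by
    intro w
    induction w with
    | nil => simp
    | cons z t ih =>
      rw [List.flatMap_cons, List.map_append, List.prod_append, ih, List.map_cons, List.prod_cons]
      congr 1
      unfold E
      split_ifs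
      · simp
      · simp only [List.map_cons, List.map_nil, List.prod_cons, List.prod_nil, mul_one]
        calc (u : B) * (star (u : B) * z.2 * (u : B) * star (u : B))
            = ((u : B) * star (u : B)) * z.2 * ((u : B) * star (u : B)) := by
              simp only [mul_assoc]
          _ = z.2 := by rw [huu, one_mul, mul_one]
  rw [← hprod w]
  apply hfree
  · intro h0
    apply hw
    cases w with
    | nil => rfl
    | cons z t =>
      exfalso
      rw [List.flatMap_cons] at h0
      have h1 := (List.append_eq_nil_iff.mp h0).1
      unfold E at h1
      split_ifs at h1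
  · intro y hy
    rw [List.mem_flatMap] at hy
    obtain ⟨z, hzw, hyz⟩ := hy
    have hz1 := hz z hzw
    beta_reduce at hz1
    show y.2 ∈ (if y.1 then S else StarAlgebra.adjoin ℂ {(u : B)}) ∧ τ y.2 = 0
    unfold E at hyz
    split_ifs at hyz with hb
    · rw [List.mem_singleton] at hyz
      subst hyz
      rw [if_pos hb] at hz1
      rw [if_pos hb]
      exact hz1
    · rw [if_neg hb] at hz1
      simp only [List.mem_cons, List.not_mem_nil, or_false] at hyz
      rcases hyz with rfl | rfl | rfl
      · refine ⟨?_, ?_⟩
        · simp only [Bool.false_eq_true, if_false]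
          exact StarAlgebra.self_mem_adjoin_singleton ℂ _
        · have := hu 1 one_ne_zero
          simpa using this
      · refine ⟨?_, ?_⟩
        · simp only [if_true]
          obtain ⟨s, hs, hsz⟩ := hz1.1
          have e : z.2 = (u : B) * s * star (u : B) := by
            rw [← hsz]
            simp [Unitary.conjStarAlgAut_apply]
          rw [e]
          have e2 : star (u : B) * ((u : B) * s * star (u : B)) * (u : B) = s := by
            calc star (u : B) * ((u : B) * s * star (u : B)) * (u : B)
                = (star (u : B) * (u : B)) * s * (star (u : B) * (u : B)) := by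
                  simp only [mul_assoc]
              _ = s := by rw [huu', one_mul, mul_one]
          rw [e2]
          exact hs
        · show τ (star (u : B) * z.2 * (u : B)) = 0
          rw [hτ.comm, ← mul_assoc, huu, one_mul]
          exact hz1.2
      · refine ⟨?_, ?_⟩
        · simp only [Bool.false_eq_true, if_false]
          exact star_mem (StarAlgebra.self_mem_adjoin_singleton ℂ _)
        · have h1 := hu (-1) (by norm_num)
          rw [zpow_neg, zpow_one] at h1
          exact h1
  · exact flat_chain (u : B) w hc

end Pool.Agent.H923R2.FZ.T_CJF
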