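import Pool.Agent.H923R2.FZ.Stubs1

set_option autoImplicit false

open scoped ComplexConjugate

noncomputable section

namespace Pool.Agent.H923R2.FZ.T_QNT

open Pool.Agent.H923R2.FP Pool.Agent.H923R2.FZ MeasureTheory

theorem int_of (μ : Measure ℝ) [IsProbabilityMeasure μ] (F : ℝ → ℝ) (hF : Continuous F) (C : ℝ)
    (hC : ∀ t, |F t| ≤ C) : Integrable F μ :=
  (integrable_const C).mono' hF.aestronglyMeasurable (Filter.Eventually.of_forall hC)

theorem t_QNT (hMEAS : S_MEAS) (hQN : S_QN) (hLAWV : S_LAWV) : S_QNT := by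
  intro B _ τ hτ n φ v hR hFS
  obtain ⟨μ, hμ, hμ1, hμF⟩ := hMEAS B τ hτ (φ 0 0) (hR.pc0 0)
  obtain ⟨hF0, hlaw, -⟩ := hLAWV B τ hτ n φ v hR hFS
  have hfull : ∀ s s' : ℝ, 0 ≤ s → s < s' → s' ≤ 1 → 0 < μ (Set.Ioo s s') := by
    intro s s' hs hss hs'
    by_contra hcon
    have h0 : μ (Set.Ioo s s') = 0 := by simpa using hcon
    set F : ℝ → ℝ := fun t => max 0 (min (t - s) (s' - t)) with hF
    have hFc : Continuous F := by rw [hF]; fun_prop
    have h1 := hF0 F hFc (fun t => le_max_left _ _) ⟨(s + s') / 2, ⟨by linarith, by linarith⟩, by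
      have h2 : 0 < min ((s + s') / 2 - s) (s' - (s + s') / 2) :=
        lt_min (by linarith) (by linarith)
      show max 0 (min ((s + s') / 2 - s) (s' - (s + s') / 2)) ≠ 0
      rw [max_eq_right h2.le]
      exact h2.ne'⟩
    rw [hμF F hFc, Complex.ofReal_re] at h1
    have h3 : ∫ t, F t ∂μ = 0 := by
      apply integral_eq_zero_of_ae
      have h4 : ∀ᵐ t ∂μ, t ∉ Set.Ioo s s' := measure_eq_zero_iff_ae_notMem.mp h0
      filter_upwards [h4] with t ht
      show max 0 (min (t - s) (s' - t)) = 0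
      apply max_eq_left
      by_contra hlt
      push Not at hlt
      rw [lt_min_iff] at hlt
      exact ht ⟨by linarith [hlt.1], by linarith [hlt.2]⟩
    rw [h3] at h1
    exact lt_irrefl _ h1
  have hn1 : (0 : ℝ) < (n : ℝ) + 1 := by positivity
  -- the bound for the tails
  have htail : ∀ m : ℕ, μ (Set.Ici (1 / ((m : ℝ) + 1))) ≤ ENNReal.ofReal (1 / ((n : ℝ) + 1)) := by
    intro m
    have hm1 : (0 : ℝ) < (m : ℝ) + 1 := by positivity
    set F : ℝ → ℝ := fun t => max 0 (min 1 (((m : ℝ) + 1) * t)) with hF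
    have hFc : Continuous F := by rw [hF]; fun_prop
    have hF00 : F 0 = 0 := by simp [hF]
    have hFn : ∀ t, 0 ≤ F t := fun t => le_max_left _ _
    have hF1 : ∀ t, F t ≤ 1 := fun t => max_le zero_le_one (min_le_left _ _)
    have hFabs : ∀ t, |F t| ≤ 1 := fun t => by rw [abs_of_nonneg (hFn t)]; exact hF1 t
    have h1 := hlaw F hFc hF00
    rw [hμF F hFc] at h1
    have h2 : ‖τ (cfc F (∑ m, φ m m))‖ ≤ 1 := by
      refine (hτ.bound _).trans ?_
      refine norm_cfc_le zero_le_one ?_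
      intro t _
      exact hFabs t
    rw [h1] at h2
    have h3 : ((n : ℂ) + 1) * ((∫ s, F s ∂μ : ℝ) : ℂ) = ((((n : ℝ) + 1) * ∫ s, F s ∂μ : ℝ) : ℂ) := by
      push_cast; ring
    rw [h3, Complex.norm_real, Real.norm_eq_abs] at h2
    have h4 : ((n : ℝ) + 1) * ∫ s, F s ∂μ ≤ 1 := (le_abs_self _).trans h2
    have h5 : ∫ s, F s ∂μ ≤ 1 / ((n : ℝ) + 1) := by
      rw [le_div_iff₀ hn1]; linarith
    have h6 : μ.real (Set.Ici (1 / ((m : ℝ) + 1))) ≤ ∫ s, F s ∂μ := by
      have h7 : ∫ s, (Set.Ici (1 / ((m : ℝ) + 1))).indicator (fun _ => (1 : ℝ)) s ∂μ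
          = μ.real (Set.Ici (1 / ((m : ℝ) + 1))) := by
        rw [integral_indicator measurableSet_Ici]
        simp
      rw [← h7]
      apply integral_mono_ae
      · exact (integrable_const (1 : ℝ)).indicator measurableSet_Ici
      · exact int_of μ F hFc 1 hFabs
      · refine Filter.Eventually.of_forall ?_
        intro t
        by_cases ht : t ∈ Set.Ici (1 / ((m : ℝ) + 1))
        · rw [Set.indicator_of_mem ht]
          have h8 : 1 ≤ ((m : ℝ) + 1) * t := by
            have : 1 / ((m : ℝ) + 1) ≤ t := ht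
            rw [div_le_iff₀ hm1] at this
            linarith
          show (1 : ℝ) ≤ max 0 (min 1 (((m : ℝ) + 1) * t))
          rw [min_eq_left h8]
          exact le_max_right _ _
        · rw [Set.indicator_of_notMem ht]
          exact hFn t
    have h9 : μ.real (Set.Ici (1 / ((m : ℝ) + 1))) ≤ 1 / ((n : ℝ) + 1) := h6.trans h5
    rw [← ENNReal.ofReal_toReal (measure_ne_top μ (Set.Ici (1 / ((m : ℝ) + 1))))]
    exact ENNReal.ofReal_le_ofReal h9
  have hIoi : μ (Set.Ioi 0) ≤ ENNReal.ofReal (1 / ((n : ℝ) + 1)) := by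
    have e : Set.Ioi (0 : ℝ) = ⋃ m : ℕ, Set.Ici (1 / ((m : ℝ) + 1)) := by
      ext t
      rw [Set.mem_Ioi, Set.mem_iUnion]
      constructor
      · intro ht
        obtain ⟨m, hm⟩ := exists_nat_one_div_lt ht
        exact ⟨m, hm.le⟩
      · rintro ⟨m, hm⟩
        have h1 : (0 : ℝ) < 1 / ((m : ℝ) + 1) := by positivity
        exact lt_of_lt_of_le h1 hm
    have hmono : Monotone (fun m : ℕ => Set.Ici (1 / ((m : ℝ) + 1))) := by
      intro m m' hmm
      apply Set.Ici_subset_Ici.mpr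
      apply one_div_le_one_div_of_le (by positivity)
      have : (m : ℝ) ≤ m' := by exact_mod_cast hmm
      linarith
    rw [e, hmono.measure_iUnion]
    exact iSup_le htail
  have hmass : ((n : ENNReal) + 1) * μ (Set.Ioi 0) ≤ 1 := by
    calc ((n : ENNReal) + 1) * μ (Set.Ioi 0)
        ≤ ((n : ENNReal) + 1) * ENNReal.ofReal (1 / ((n : ℝ) + 1)) := by gcongr
      _ = 1 := by
          have e : ((n : ENNReal) + 1) = ENNReal.ofReal ((n : ℝ) + 1) := by
            rw [ENNReal.ofReal_add (Nat.cast_nonneg _) zero_le_one, ENNReal.ofReal_natCast,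
              ENNReal.ofReal_one]
          rw [e, ← ENNReal.ofReal_mul hn1.le]
          have : ((n : ℝ) + 1) * (1 / ((n : ℝ) + 1)) = 1 := by field_simp
          rw [this, ENNReal.ofReal_one]
  obtain ⟨f, hf1, hf2, hf3⟩ := hQN μ hμ1 hfull n hmass
  refine ⟨f, hf1, hf2, ?_⟩
  intro i F hF
  rw [hf3 i F hF, hμF F hF]

end Pool.Agent.H923R2.FZ.T_QNT
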