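import Pool.Agent.H923R2.FZ.Stubs3
import Pool.Agent.H308R2.ZS.Stubs

/-! The final statements. -/

set_option autoImplicit false

open scoped ComplexConjugate ComplexOrder

noncomputable section

namespace Pool.Agent.H923R2.FZ

open Pool.Agent.H923R2.FP Pool.Agent.H308R2.ZS

/-- `(A, φ)` with the embeddings `e` is the reduced free product of the `(D j, t j)`: `φ` is a
state, extends the `t j`, the copies are free and generate `A`, and the GNS representation of `φ`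
is faithful -/
structure IsRFP {J : Type} (D : J → Type) [∀ j, CStarAlgebra (D j)] (t : ∀ j, D j → ℂ)
    {A : Type} [CStarAlgebra A] (φ : A →ₗ[ℂ] ℂ) (e : ∀ j, D j →⋆ₐ[ℂ] A) : Prop where
  one : φ 1 = 1
  nonneg : ∀ x, 0 ≤ φ (star x * x)
  tr : ∀ j x, φ (e j x) = t j x
  free : ∀ w : List (Σ j, D j), w ≠ [] → w.IsChain (fun a b => a.1 ≠ b.1) →
    (∀ z ∈ w, t z.1 z.2 = 0) → φ ((w.map fun z => e z.1 z.2).prod) = 0
  gen : (StarAlgebra.adjoin ℂ (⋃ j, Set.range (e j))).topologicalClosure = ⊤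
  gns : ∀ a, (∀ x, φ (star (a * x) * (a * x)) = 0) → a = 0

/-- a GNS-faithful reduced free product of tracial states is faithful and tracial -/
def S_GNSF : Prop := ∀ (J : Type) (D : J → Type) [∀ j, CStarAlgebra (D j)] (t : ∀ j, D j → ℂ)
  (A : Type) [CStarAlgebra A] (φ : A →ₗ[ℂ] ℂ) (e : ∀ j, D j →⋆ₐ[ℂ] A),
  (∀ j x y, t j (x * y) = t j (y * x)) → IsRFP D t φ e → RFP D t φ e

/-- converse -/
def S_GNSB : Prop := ∀ (J : Type) (D : J → Type) [∀ j, CStarAlgebra (D j)] (t : ∀ j, D j → ℂ)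
  (A : Type) [CStarAlgebra A] (φ : A →ₗ[ℂ] ℂ) (e : ∀ j, D j →⋆ₐ[ℂ] A),
  RFP D t φ e → IsRFP D t φ e

/-- the Jiang–Su algebra is separable -/
def S_SEPZ : Prop := ∀ (Z : Type) [CStarAlgebra Z] (τ : Z →ₗ[ℂ] ℂ), IsJiangSu Z τ →
  TopologicalSpace.SeparableSpace Z

/-- the Jiang–Su algebra is locally approximated by Rørdam–Winter systems -/
def S_RWAZ : Prop := ∀ (Z : Type) [CStarAlgebra Z] (τ : Z →ₗ[ℂ] ℂ), IsJiangSu Z τ → RWA τ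

/-- `A` is a reduced free power, with at least two factors, of the Jiang–Su algebra `(Z, t)` or of
`(C([0,1]), Lebesgue)` -/
def InF (Z : Type) [CStarAlgebra Z] (t : Z →ₗ[ℂ] ℂ) (A : Type) [CStarAlgebra A] : Prop :=
  (∃ (k : ℕ) (φ : A →ₗ[ℂ] ℂ) (e : Fin k → (Z →⋆ₐ[ℂ] A)), 2 ≤ k ∧
    IsRFP (J := Fin k) (fun _ => Z) (fun _ => (t : Z → ℂ)) φ e) ∨
  ∃ (l : ℕ) (φ : A →ₗ[ℂ] ℂ) (e : Fin l → (C(unitInterval, ℂ) →⋆ₐ[ℂ] A)), 2 ≤ l ∧
    IsRFP (J := Fin l) (fun _ => C(unitInterval, ℂ)) (fun _ => leb) φ e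

/-- the main theorem -/
def S_FINAL : Prop := ∀ (Z : Type) [CStarAlgebra Z] (t : Z →ₗ[ℂ] ℂ), IsJiangSu Z t →
  (∀ k : ℕ, ∃ (A : Type) (_ : CStarAlgebra A) (φ : A →ₗ[ℂ] ℂ)
    (e : Fin k → (Z →⋆ₐ[ℂ] A)), IsRFP (J := Fin k) (fun _ => Z) (fun _ => (t : Z → ℂ)) φ e) ∧
  (∀ l : ℕ, ∃ (A : Type) (_ : CStarAlgebra A) (φ : A →ₗ[ℂ] ℂ)
    (e : Fin l → (C(unitInterval, ℂ) →⋆ₐ[ℂ] A)),
    IsRFP (J := Fin l) (fun _ => C(unitInterval, ℂ)) (fun _ => leb) φ e) ∧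
  ∀ (A B : Type) [CStarAlgebra A] [CStarAlgebra B], InF Z t A → InF Z t B →
    Nonempty (A ≃⋆ₐ[ℂ] B)

end Pool.Agent.H923R2.FZ
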