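import Pool.Agent.H923R2.FZ.Stubs0
import Pool.Agent.H923R2.FZ.Stubs1

/-! Statements of the tasks, wave 2: freeness, Hilbert hotel, absorption of infinitely many copies,
assembly. -/

set_option autoImplicit false

open scoped ComplexConjugate

noncomputable section

namespace Pool.Agent.H923R2.FZ

open Pool.Agent.H923R2.FP

/-! ### freeness -/

/-- closures -/
def S_CLO : Prop := ∀ (A : Type) [CStarAlgebra A] (τ : A →ₗ[ℂ] ℂ), FTS τ →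
  ∀ (K : Type) (S : K → StarSubalgebra ℂ A), FreeFam τ S →
  FreeFam τ (fun k => (S k).topologicalClosure)

/-- grouping the indices of `P` -/
def S_GRP2 : Prop := ∀ (A : Type) [CStarAlgebra A] (τ : A →ₗ[ℂ] ℂ), FTS τ →
  ∀ (K : Type) (S : K → StarSubalgebra ℂ A), FreeFam τ S → ∀ P : Set K,
  FreeFam τ (fun o : Option {k // k ∉ P} => o.elim (⨆ k : {k // k ∈ P}, S k.1) fun k => S k.1)

/-- ungrouping -/
def S_UNG2 : Prop := ∀ (A : Type) [CStarAlgebra A] (τ : A →ₗ[ℂ] ℂ), FTS τ →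
  ∀ (K : Type) (S : K → StarSubalgebra ℂ A) (P : Set K) (T : StarSubalgebra ℂ A),
  (∀ k ∈ P, S k ≤ T) → FreeFam τ (fun k : {k // k ∈ P} => S k.1) →
  FreeFam τ (fun o : Option {k // k ∉ P} => o.elim T fun k => S k.1) → FreeFam τ S

open Classical in
/-- conjugating the members of a group by a unitary of the group -/
def S_REPL : Prop := ∀ (A : Type) [CStarAlgebra A] (τ : A →ₗ[ℂ] ℂ), FTS τ →
  ∀ (K : Type) (S : K → StarSubalgebra ℂ A), FreeFam τ S → ∀ (P : Set K) (v : unitary A),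
  (v : A) ∈ (⨆ k : {k // k ∈ P}, S k.1).topologicalClosure →
  FreeFam τ (fun k => if k ∈ P then
    (S k).map ((Unitary.conjStarAlgAut ℂ A v : A ≃⋆ₐ[ℂ] A) : A →⋆ₐ[ℂ] A) else S k)

/-- restriction of a trace to a closed subalgebra -/
def S_SUB : Prop := ∀ (A : Type) [CStarAlgebra A] (τ : A →ₗ[ℂ] ℂ), FTS τ →
  ∀ (T : StarSubalgebra ℂ A) [IsClosed (T : Set A)],
  FTS (τ.comp T.subtype.toAlgHom.toLinearMap) ∧
  ∀ (K : Type) (S : K → StarSubalgebra ℂ T), FreeFam τ (fun k => (S k).map T.subtype) ↔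
    FreeFam (τ.comp T.subtype.toAlgHom.toLinearMap) S

/-- a free Haar unitary in a reduced free product with infinitely many copies of `C([0,1])` -/
def S_HUW : Prop := ∀ (J : Type) (D : J → Type) [∀ j, CStarAlgebra (D j)] (t : ∀ j, D j → ℂ)
  (B : Type) [CStarAlgebra B] (τ : B →ₗ[ℂ] ℂ) (e : ∀ j, D j →⋆ₐ[ℂ] B)
  (f : ℕ → (C(unitInterval, ℂ) →⋆ₐ[ℂ] B)), RFPw D t τ e f → HU τ

/-! ### the Hilbert hotel -/

/-- finite subsets of `Z` are approximately conjugate into the copies of `C([0,1])` -/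
def CJ (Z : Type) [CStarAlgebra Z] (t : Z → ℂ) : Prop :=
  ∀ (B : Type) [CStarAlgebra B] (τ : B →ₗ[ℂ] ℂ) (d : Z →⋆ₐ[ℂ] B)
  (f : ℕ → (C(unitInterval, ℂ) →⋆ₐ[ℂ] B)),
  RFPw (J := Unit) (fun _ => Z) (fun _ => t) τ (fun _ => d) f →
  ∀ (G : Finset Z) (ε : ℝ), 0 < ε → ∃ u : unitary B, ∀ g ∈ G,
    ∃ y ∈ StarAlgebra.adjoin ℂ (⋃ n, Set.range (f n)), ‖(u : B) * d g * star (u : B) - y‖ < ε

/-- local approximation of `Z` by Rørdam–Winter systems -/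
def RWA {Z : Type} [CStarAlgebra Z] (t : Z →ₗ[ℂ] ℂ) : Prop :=
  ∀ (G : Finset Z) (ε : ℝ), 0 < ε → ∃ (n : ℕ) (φ : Fin (n + 1) → Fin (n + 1) → Z) (v : Z),
    RWS n φ v ∧ FSl t (∑ m, φ m m) ∧
    ∀ g ∈ G, ∃ y ∈ StarAlgebra.adjoin ℂ (Set.range (fun p : Fin (n + 1) × Fin (n + 1) =>
      φ p.1 p.2) ∪ {v}), ‖g - y‖ < ε

/-- conjugation of `Z` -/
def S_CJZ : Prop := ∀ (Z : Type) [CStarAlgebra Z] (t : Z →ₗ[ℂ] ℂ), RWA t → CJ Z t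

/-- step of the Hilbert hotel -/
def S_HSTEP : Prop := ∀ (Z : Type) [CStarAlgebra Z] (t : Z → ℂ), CJ Z t → ∀ (k : ℕ)
  (B : Type) [CStarAlgebra B] (τ : B →ₗ[ℂ] ℂ) (e : Fin (k + 1) → (Z →⋆ₐ[ℂ] B))
  (f : ℕ → (C(unitInterval, ℂ) →⋆ₐ[ℂ] B)),
  RFPw (J := Fin (k + 1)) (fun _ => Z) (fun _ => t) τ e f →
  ∀ (N0 : ℕ) (F : Finset B) (ε : ℝ), 0 < ε →
  ∃ (e' : Fin (k + 1) → (Z →⋆ₐ[ℂ] B)) (f' : ℕ → (C(unitInterval, ℂ) →⋆ₐ[ℂ] B)) (N1 : ℕ),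
    RFPw (J := Fin (k + 1)) (fun _ => Z) (fun _ => t) τ e' f' ∧
    (∀ j : Fin k, e' j.castSucc = e j.castSucc) ∧ (∀ n < N0, f' n = f n) ∧ N0 ≤ N1 ∧
    ∀ x ∈ F, ∃ y ∈ StarAlgebra.adjoin ℂ ((⋃ j : Fin k, Set.range (e j.castSucc)) ∪
      ⋃ n : {n : ℕ // n < N1}, Set.range (f' n.1)), ‖x - y‖ < ε

/-- the Hilbert hotel -/
def S_HOT : Prop := ∀ (Z : Type) [CStarAlgebra Z] (t : Z → ℂ), CJ Z t → ∀ (k : ℕ)
  (B : Type) [CStarAlgebra B] [TopologicalSpace.SeparableSpace B] (τ : B →ₗ[ℂ] ℂ)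
  (e : Fin (k + 1) → (Z →⋆ₐ[ℂ] B)) (f : ℕ → (C(unitInterval, ℂ) →⋆ₐ[ℂ] B)),
  RFPw (J := Fin (k + 1)) (fun _ => Z) (fun _ => t) τ e f →
  ∃ (f' : ℕ → (C(unitInterval, ℂ) →⋆ₐ[ℂ] B)),
    RFPw (J := Fin k) (fun _ => Z) (fun _ => t) τ (fun j => e j.castSucc) f'

/-! ### absorption of infinitely many copies -/

open Classical in
/-- absorption of one of infinitely many copies, with closeness -/
def S_ABSIS : Prop := ∀ (J : Type) [Countable J] (D : J → Type) [∀ j, CStarAlgebra (D j)]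
  [∀ j, TopologicalSpace.SeparableSpace (D j)] (t : ∀ j, D j → ℂ)
  (i0 i1 : J), i0 ≠ i1 → ∀ (c0 : C(unitInterval, ℂ) →⋆ₐ[ℂ] D i0) (c1 : C(unitInterval, ℂ) →⋆ₐ[ℂ] D i1),
  (∀ x, t i0 (c0 x) = leb x) → (∀ x, t i1 (c1 x) = leb x) →
  ∀ (B : Type) [CStarAlgebra B] (τ : B →ₗ[ℂ] ℂ) (e : ∀ j, D j →⋆ₐ[ℂ] B)
  (f : ℕ → (C(unitInterval, ℂ) →⋆ₐ[ℂ] B)), RFPw D t τ e f → ∀ ε : ℝ, 0 < ε →
  ∃ σ : D i0 →⋆ₐ[ℂ] B, (∀ x, ‖σ x - e i0 x‖ ≤ ε * ‖x‖) ∧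
    RFPw D t τ (Function.update e i0 σ) (fun n => f (n + 1)) ∧
    (∀ x, e i0 x ∈
      (StarAlgebra.adjoin ℂ (⋃ j, Set.range (Function.update e i0 σ j))).topologicalClosure) ∧
    ∀ x, f 0 x ∈
      (StarAlgebra.adjoin ℂ (⋃ j, Set.range (Function.update e i0 σ j))).topologicalClosure

/-- absorption of infinitely many copies -/
def S_ABSI : Prop := ∀ (J : Type) [Countable J] (D : J → Type) [∀ j, CStarAlgebra (D j)]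
  [∀ j, TopologicalSpace.SeparableSpace (D j)] (t : ∀ j, D j → ℂ)
  (i0 i1 : J), i0 ≠ i1 → ∀ (c0 : C(unitInterval, ℂ) →⋆ₐ[ℂ] D i0) (c1 : C(unitInterval, ℂ) →⋆ₐ[ℂ] D i1),
  (∀ x, t i0 (c0 x) = leb x) → (∀ x, t i1 (c1 x) = leb x) →
  ∀ (B : Type) [CStarAlgebra B] [TopologicalSpace.SeparableSpace B] (τ : B →ₗ[ℂ] ℂ)
  (e : ∀ j, D j →⋆ₐ[ℂ] B)
  (f : ℕ → (C(unitInterval, ℂ) →⋆ₐ[ℂ] B)), RFPw D t τ e f → ∃ e' : ∀ j, D j →⋆ₐ[ℂ] B, RFP D t τ e'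

/-! ### assembly -/

/-- separability -/
def S_SEPW : Prop := ∀ (J : Type) [Countable J] (D : J → Type) [∀ j, CStarAlgebra (D j)]
  [∀ j, TopologicalSpace.SeparableSpace (D j)] (t : ∀ j, D j → ℂ)
  (B : Type) [CStarAlgebra B] (τ : B →ₗ[ℂ] ℂ) (e : ∀ j, D j →⋆ₐ[ℂ] B)
  (f : ℕ → (C(unitInterval, ℂ) →⋆ₐ[ℂ] B)), RFPw D t τ e f → TopologicalSpace.SeparableSpace B

/-- existence of reduced free products -/
def S_EX : Prop := ∀ (K : Type) (D : K → Type) (_ : ∀ k, CStarAlgebra (D k))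
  (t : ∀ k, D k →ₗ[ℂ] ℂ), (∀ k, FTS (t k)) →
  ∃ (A : Type) (_ : CStarAlgebra A) (τ : A →ₗ[ℂ] ℂ) (e : ∀ k, D k →⋆ₐ[ℂ] A),
    RFP D (fun k => t k) τ e

/-- the Lebesgue integral is a faithful tracial state -/
def S_LEBF : Prop := ∃ l : C(unitInterval, ℂ) →ₗ[ℂ] ℂ, FTS l ∧ ∀ x, l x = leb x

/-- existence of the reduced free product of `k` copies of `Z` and countably many `C([0,1])` -/
def S_EXW : Prop := ∀ (Z : Type) [CStarAlgebra Z] (t : Z →ₗ[ℂ] ℂ), FTS t → ∀ k : ℕ,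
  ∃ (B : Type) (_ : CStarAlgebra B) (τ : B →ₗ[ℂ] ℂ) (e : Fin k → (Z →⋆ₐ[ℂ] B))
    (f : ℕ → (C(unitInterval, ℂ) →⋆ₐ[ℂ] B)),
    RFPw (J := Fin k) (fun _ => Z) (fun _ => (t : Z → ℂ)) τ e f

/-- no copies of `Z` -/
def S_ZERO : Prop := ∀ (Z : Type) [CStarAlgebra Z] (t : Z → ℂ)
  (B : Type) [CStarAlgebra B] (τ : B →ₗ[ℂ] ℂ) (e : Fin 0 → (Z →⋆ₐ[ℂ] B))
  (f : ℕ → (C(unitInterval, ℂ) →⋆ₐ[ℂ] B)), RFPw (J := Fin 0) (fun _ => Z) (fun _ => t) τ e f →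
  RFP (J := ℕ) (fun _ => C(unitInterval, ℂ)) (fun _ => leb) τ f

/-- `l` of the copies of `C([0,1])` -/
def S_SPL : Prop := ∀ (B : Type) [CStarAlgebra B] (τ : B →ₗ[ℂ] ℂ)
  (f : ℕ → (C(unitInterval, ℂ) →⋆ₐ[ℂ] B)),
  RFP (J := ℕ) (fun _ => C(unitInterval, ℂ)) (fun _ => leb) τ f → ∀ l : ℕ,
  RFPw (J := Fin l) (fun _ => C(unitInterval, ℂ)) (fun _ => leb) τ (fun j => f j)
    (fun n => f (l + n))

/-- all reduced free powers of `Z` and of `C([0,1])` are isomorphic to the reduced free product of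
countably many copies of `C([0,1])` -/
def S_MAINZ : Prop := ∀ (Z : Type) [CStarAlgebra Z] [TopologicalSpace.SeparableSpace Z]
  (t : Z →ₗ[ℂ] ℂ), FTS t → RWA t → ∀ c : C(unitInterval, ℂ) →⋆ₐ[ℂ] Z, (∀ x, t (c x) = leb x) →
  ∀ (W : Type) [CStarAlgebra W] (τW : W →ₗ[ℂ] ℂ) (g : ℕ → (C(unitInterval, ℂ) →⋆ₐ[ℂ] W)),
  RFP (J := ℕ) (fun _ => C(unitInterval, ℂ)) (fun _ => leb) τW g →
  (∀ (k : ℕ), 2 ≤ k → ∀ (A : Type) [CStarAlgebra A] (τ : A →ₗ[ℂ] ℂ)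
    (e : Fin k → (Z →⋆ₐ[ℂ] A)), RFP (J := Fin k) (fun _ => Z) (fun _ => (t : Z → ℂ)) τ e →
    Nonempty (A ≃⋆ₐ[ℂ] W)) ∧
  (∀ (l : ℕ), 2 ≤ l → ∀ (A : Type) [CStarAlgebra A] (τ : A →ₗ[ℂ] ℂ)
    (e : Fin l → (C(unitInterval, ℂ) →⋆ₐ[ℂ] A)),
    RFP (J := Fin l) (fun _ => C(unitInterval, ℂ)) (fun _ => leb) τ e → Nonempty (A ≃⋆ₐ[ℂ] W))

end Pool.Agent.H923R2.FZ
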