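import Pool.Agent.H923R2.FZ.JS
import Pool.Agent.H598R3.FP_STAGE
import Pool.Agent.H278R2.FP_C2
import Pool.Agent.H278R2.FP_C3
import Pool.Agent.H278R2.FP_C4
import Pool.Agent.H278R2.FP_C6
import Pool.Agent.H807FP.FP_C5
import Pool.Agent.H90.FP_C1
import Pool.Agent.H96R3.FP_NI
import Pool.Agent.H154R5.FP_T1
import Pool.Agent.H311R.FP_T2
import Pool.Agent.H202FP.FP_T3
import Pool.Agent.H598R3.FP_N3
import Pool.Agent.H157R2.FP_N4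
import Pool.Agent.H797R2.FP_N1
import Pool.Agent.H797R2.FP_N2
import Pool.Agent.H797R2.FP_PH
import Pool.Agent.H508R2.FP.FP_MID
import Pool.Agent.H778R2.FP_AD
import Pool.Agent.H955R2.FP_FORM
import Pool.Agent.H344R3.FP_DIST
import Pool.Agent.H61R2.FP_CW
import Pool.Agent.H909R2.FP_EPS
import Pool.Agent.H79R2.FP_HX
import Pool.Agent.H202FP.FP_STAR
import Pool.Agent.H997R2.FP_KEY
import Pool.Agent.H749.FP_F1
import Pool.Agent.H662R2.FP_F1a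
import Pool.Agent.H475R2.FP_F1b
import Pool.Agent.H794R2.FP_TI
import Pool.Agent.H58R2.FP_DERSD
import Pool.Agent.H541FP.FP_FLOW
import Pool.Agent.H584R2.FP923.FP_ODE
import Pool.Agent.H532R2.FP_LIP
import Pool.Agent.H75R6.FP_WDER
import Pool.Agent.H535R2.FP_LAW
import Pool.Agent.H368R5.FP_BND
import Pool.Agent.H619R2.FP_BACK
import Pool.Agent.H66R2.FP.FP_TRF
import Pool.Agent.H213R2.FP_ABS1
import Pool.Agent.H45FP.FP_ABS2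
import Pool.Agent.H778R2.FP_ABS3
import Pool.Agent.H89R2.FP_GRP
import Pool.Agent.H672R2.FP.SDF
import Pool.Agent.H844R4.FP.PHI
import Pool.Agent.H254R2.FP_GADC
import Pool.Agent.H409R2.FP_UNG
import Pool.Agent.H495R3.FZ_ABS4E
import Pool.Agent.H898R5.FZ.LIM2
import Pool.Agent.H439FZ.FZ_ABSE
import Pool.Agent.H536R2.FP_UNIQ
import Pool.Agent.H479R2.FP_MOM
import Pool.Agent.H357R4.FP_NRM
import Pool.Agent.H237R2.FP_SEP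
import Pool.Agent.H641R2.FZ_ABSI
import Pool.Agent.H61R2.FZ_ABSIS
import Pool.Agent.H821R6.FZ_AMP
import Pool.Agent.H923R2.FZ.T_CJF
import Pool.Agent.H290R2.FZ_CJZ
import Pool.Agent.H821R6.FZ_CLO
import Pool.Agent.H726FZ.FZ_CONJ
import Pool.Agent.H598R3.FZ_EX
import Pool.Agent.H205R2.FZ.FZ_EXC
import Pool.Agent.H923R2.FZ.EXF
import Pool.Agent.H265R2.FZ_FR2
import Pool.Agent.H598R3.FZ_GNSF
import Pool.Agent.H272R2.FZ_GNSB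
import Pool.Agent.H205R2.FZ.FZ_EXG
import Pool.Agent.H205R2.FZ.FZ_EXL
import Pool.Agent.H248.FZ_EXW
import Pool.Agent.H130.FZ_FACT
import Pool.Agent.H991R2.FZ_FCB
import Pool.Agent.H940D.FZ_GRP2
import Pool.Agent.H784R2.FZ.FZ_HOT
import Pool.Agent.H445.FZ_HSTEP
import Pool.Agent.H940D.FZ_HUW
import Pool.Agent.H419R2.FZ_INV
import Pool.Agent.H142R2.FZ_LAWV
import Pool.Agent.H291R2.FZ.LEBF
import Pool.Agent.H272R2.FZ_MAINZ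
import Pool.Agent.H222R2.FZ_MEAS
import Pool.Agent.H303R2.FZ.FZ_MV
import Pool.Agent.H21R.FZ_OZ
import Pool.Agent.H9R5.FZ.FZ_POS
import Pool.Agent.H598R3.FZ_POSE
import Pool.Agent.H896.FZ_POSI
import Pool.Agent.H339R2.FZ_QN
import Pool.Agent.H923R2.FZ.T_QNT
import Pool.Agent.H386R6.FZ_R0
import Pool.Agent.H794R2.FZ_R0b
import Pool.Agent.H595R2.FZ_R1
import Pool.Agent.H578R2.FZ_R1a
import Pool.Agent.H911R5.FZ_RDG
import Pool.Agent.Helper275.FZ_REPL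
import Pool.Agent.H291R2.FZ.SEPW
import Pool.Agent.H355R3.FZ_SPL
import Pool.Agent.H357R4.FZ_SRB
import Pool.Agent.H821R6.FZ_SUB
import Pool.Agent.H61R2.FZ_TRC
import Pool.Agent.H674R2.FZ_UNG2
import Pool.Agent.H255R3.FZ_V0
import Pool.Agent.H129R2.FZ_VST
import Pool.Agent.H672R2.FZ_ZERO

/-! Assembly of the tasks. -/

set_option autoImplicit false

noncomputable section

namespace Pool.Agent.H923R2.FP.All

theorem f1 : S_F1 := T_F1.t_F1 T_F1a.t_F1a T_F1b.t_F1b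
theorem key : S_KEY := T_KEY.t_KEY f1 T_PH.t_PH T_MID.t_MID
theorem star : S_STAR := T_STAR.t_STAR key
theorem c4 : S_C4 := T_C4.t_C4 T_C2.t_C2
theorem n3 : S_N3 := T_N3.t_N3 T_T1.t_T1 T_N1.t_N1 T_N2.t_N2
theorem n4 : S_N4 := T_N4.t_N4 T_C1.t_C1 T_MID.t_MID
theorem ni : S_NI := T_NI.t_NI T_T1.t_T1 T_T2.t_T2 T_C6.t_C6 n3 n4 T_AD.t_AD
theorem flow : S_FLOW := T_FLOW.t_FLOW T_ODE.t_ODE T_LIP.t_LIP
theorem stage : S_STAGE := T_STAGE.t_STAGE T_C3.t_C3 c4 T_C5.t_C5 ni T_AD.t_AD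
  (T_FORM.t_FORM T_AD.t_AD) (T_CW.t_CW T_DIST.t_DIST) T_EPS.t_EPS T_HX.t_HX star
  (T_TI.t_TI T_DERSD.t_DERSD) flow T_WDER.t_WDER (T_LAW.t_LAW T_BND.t_BND T_WDER.t_WDER)
  (T_BACK.t_BACK T_LIP.t_LIP) T_TRF.t_TRF
theorem abs1 : S_ABS1 := T_ABS1.t_ABS1 T_GRP.t_GRP T_SDF.t_SDF
theorem abse : S_ABSE := T_ABSE.t_ABSE abs1 (T_ABS2.t_ABS2 T_PHI.t_PHI T_GADC.t_GADC)
  T_ABS3.t_ABS3 (T_ABS4E.t_ABS4E T_UNG.t_UNG) stage T_TRF.t_TRF T_LIM2.t_LIM2 T_PHI.t_PHI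
theorem uniq : S_UNIQ := T_UNIQ.t_UNIQ T_MOM.t_MOM T_NRM.t_NRM

end Pool.Agent.H923R2.FP.All

namespace Pool.Agent.H923R2.FZ.All

open Pool.Agent.H923R2.FP

theorem r0 : S_R0 := T_R0.t_R0 T_INV.t_INV
theorem r1 : S_R1 := T_R1.t_R1 r0 T_R1a.t_R1a
theorem mv : S_MV := T_MV.t_MV T_FACT.t_FACT
theorem pos : S_POS := T_POS.t_POS T_POSI.t_POSI T_POSE.t_POSE
theorem qnt : S_QNT := T_QNT.t_QNT T_MEAS.t_MEAS T_QN.t_QN T_LAWV.t_LAWV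
theorem conj : S_CONJ := T_CONJ.t_CONJ pos T_OZ.t_OZ T_VST.t_VST (T_V0.t_V0 T_FACT.t_FACT)
  T_LAWV.t_LAWV qnt
theorem srb : S_SRB := T_SRB.t_SRB (T_RDG.t_RDG T_T1.t_T1)
theorem fcb : S_FCB := T_FCB.t_FCB (T_FR2.t_FR2 T_T1.t_T1 T_T2.t_T2) T_CJF.t_CJF
theorem huw : S_HUW := T_HUW.t_HUW T_GRP2.t_GRP2 T_CLO.t_CLO T_PHI.t_PHI T_GADC.t_GADC
theorem cjz : S_CJZ := T_CJZ.t_CJZ huw srb r0 T_R0b.t_R0b r1 fcb mv conj T_SUB.t_SUB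
theorem repl : S_REPL := T_REPL.t_REPL T_GRP2.t_GRP2 T_CLO.t_CLO T_UNG2.t_UNG2
theorem hot : S_HOT := T_HOT.t_HOT (T_HSTEP.t_HSTEP repl T_SUB.t_SUB)
theorem absis : S_ABSIS := T_ABSIS.t_ABSIS FP.All.abse T_SEP.t_SEP T_SUB.t_SUB T_GRP2.t_GRP2
  T_CLO.t_CLO T_UNG2.t_UNG2
theorem absi : S_ABSI := T_ABSI.t_ABSI absis
theorem ex : S_EX := T_EX.t_EX T_EXG.t_EXG (T_EXL.t_EXL T_AMP.t_AMP) T_EXF.t_EXF T_EXC.t_EXC
  T_TRC.t_TRC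
theorem exw : S_EXW := T_EXW.t_EXW ex T_LEBF.t_LEBF
theorem mainz : S_MAINZ := T_MAINZ.t_MAINZ cjz hot absi T_SEPW.t_SEPW exw T_ZERO.t_ZERO
  T_SPL.t_SPL FP.All.uniq

end Pool.Agent.H923R2.FZ.All
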