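import Pool.Agent.H923R2.FP.Basic

/-!
MP_118406_an, second half: `Z^{*k} ≅ C([0,1])^{*l}`.  Definitions.
-/

set_option autoImplicit false

open scoped ComplexConjugate

noncomputable section

namespace Pool.Agent.H923R2.FZ

open Pool.Agent.H923R2.FP

section one

variable {B : Type} [CStarAlgebra B]

/-- positive contraction -/
def PC (x : B) : Prop := IsSelfAdjoint x ∧ spectrum ℝ x ⊆ Set.Icc 0 1

/-- the law of the positive contraction `a` has full support `[0,1]` -/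
def FSl (τ : B →ₗ[ℂ] ℂ) (a : B) : Prop :=
  ∀ F : ℝ → ℝ, Continuous F → (∀ t, 0 ≤ F t) → (∃ t ∈ Set.Icc (0 : ℝ) 1, F t ≠ 0) →
    0 < (τ (cfc F a)).re

/-- `a` and `b` have the same law -/
def SL (τ : B →ₗ[ℂ] ℂ) (a b : B) : Prop :=
  ∀ F : ℝ → ℝ, Continuous F → τ (cfc F a) = τ (cfc F b)

/-- Rørdam–Winter system: an order zero map `φ` of `M_{n+1}` and `v` with `v*v = 1 - φ(1)`,
`φ(e₁₁) v = v` -/
structure RWS (n : ℕ) (φ : Fin (n + 1) → Fin (n + 1) → B) (v : B) : Prop where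
  st : ∀ i j, star (φ i j) = φ j i
  mul : ∀ i j k l, φ i j * φ k l = if j = k then (∑ m, φ m m) * φ i l else 0
  pc : PC (∑ m, φ m m)
  pc0 : ∀ i, PC (φ i i)
  vv : star v * v = 1 - ∑ m, φ m m
  ve : φ 0 0 * v = v

/-- free comparison -/
def FC (τ : B →ₗ[ℂ] ℂ) : Prop :=
  ∀ g r : B, PC g → PC r → (τ (g * g)).re + (τ (r * r)).re < 1 →
    ∃ U : unitary B, ‖g * (U : B) * r‖ < 1

/-- moving a level of `x` under a level of `y` by a unitary which is `1` on an upper level -/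
def MV (τ : B →ₗ[ℂ] ℂ) : Prop :=
  ∀ c' c g' g g1 k k1 k2 : B, PC c' → PC c → PC g' → PC g → PC g1 → PC k → PC k1 → PC k2 →
    c * c' = c' → g' * c = c → g * g' = g' → g1 * g = g → k * c = c → k1 * k = k →
    k2 * k1 = k1 → (τ g1).re < (τ k).re →
    ∃ w : unitary B, (w : B) * c' = c' ∧ c' * (w : B) = c' ∧ k2 * ((w : B) * g') = (w : B) * g'

/-- level functions -/
def chi (L j : ℕ) (t : ℝ) : ℝ := max 0 (min 1 ((L : ℝ) * t - L + j + 1))

/-- `(B, τ)` is approximated by subalgebras which have a free Haar unitary -/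
def HU (τ : B →ₗ[ℂ] ℂ) : Prop :=
  ∀ (F : Finset B) (ε : ℝ), 0 < ε → ∃ (S : StarSubalgebra ℂ B) (u : unitary B),
    IsClosed (S : Set B) ∧ (∀ n : ℤ, n ≠ 0 → τ ((u ^ n : unitary B) : B) = 0) ∧
    FreeFam τ (fun b : Bool => if b then S else StarAlgebra.adjoin ℂ {(u : B)}) ∧
    ∀ x ∈ F, ∃ y ∈ S, ‖x - y‖ < ε

/-- `B` is the reduced free product of the `(D j, t j)` and of countably many copies of
`(C([0,1]), Lebesgue)` -/
structure RFPw {J : Type} (D : J → Type) [∀ j, CStarAlgebra (D j)] (t : ∀ j, D j → ℂ)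
    (τ : B →ₗ[ℂ] ℂ) (e : ∀ j, D j →⋆ₐ[ℂ] B) (f : ℕ → (C(unitInterval, ℂ) →⋆ₐ[ℂ] B)) :
    Prop where
  fts : FTS τ
  tr : ∀ j x, τ (e j x) = t j x
  trf : ∀ n x, τ (f n x) = leb x
  free : FreeFam τ fun o : J ⊕ ℕ => o.elim (fun j => (e j).range) fun n => (f n).range
  gen : (StarAlgebra.adjoin ℂ ((⋃ j, Set.range (e j)) ∪ ⋃ n, Set.range (f n))).topologicalClosure
    = ⊤

end one

/-- every element of the unit ball has distance `< 1` from the invertible elements -/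
def SRb (B : Type) [CStarAlgebra B] : Prop :=
  ∀ b : B, ‖b‖ ≤ 1 → ∃ z : B, IsUnit z ∧ ‖b - z‖ < 1

/-- stable rank one -/
def SR (B : Type) [CStarAlgebra B] : Prop :=
  ∀ (x : B) (ε : ℝ), 0 < ε → ∃ z : B, IsUnit z ∧ ‖x - z‖ < ε

/-- exact unitary polar decomposition above `ε` -/
def PED (B : Type) [CStarAlgebra B] : Prop :=
  ∀ (x : B) (ε : ℝ), 0 < ε → ∃ w : unitary B, ∀ G : ℝ → ℝ, Continuous G →
    (∀ t, t ≤ ε → G t = 0) →
    (w : B) * cfc G (star x * x) = x * cfc (fun t => G t / Real.sqrt t) (star x * x)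

/-- exact unitary polar decomposition in the hereditary subalgebra `{b : k b = b = b k}` -/
def PEDH (B : Type) [CStarAlgebra B] : Prop :=
  ∀ (k x : B), IsSelfAdjoint k → k * x = x → x * k = x → ∀ ε : ℝ, 0 < ε →
    ∃ w : unitary B, (1 - k) * (w : B) = 1 - k ∧ (w : B) * (1 - k) = 1 - k ∧
    ∀ G : ℝ → ℝ, Continuous G → (∀ t, t ≤ ε → G t = 0) →
      (w : B) * cfc G (star x * x) = x * cfc (fun t => G t / Real.sqrt t) (star x * x)

end Pool.Agent.H923R2.FZ
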