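import Pool.Agent.H923R2.FP.Stubs

/-! Versions with closeness of LIM, ABS4, ABS. -/

set_option autoImplicit false

open scoped ComplexConjugate

noncomputable section

namespace Pool.Agent.H923R2.FP

/-- the limit, with closeness -/
def S_LIM2 : Prop := ∀ (A Q R : Type) [CStarAlgebra A] [TopologicalSpace.SeparableSpace A]
  [Ring Q] [StarRing Q] [Algebra ℂ Q]
  [Ring R] [StarRing R] [Algebra ℂ R] (τ : A →ₗ[ℂ] ℂ) (π : Q →⋆ₐ[ℂ] A) (ρ : R →⋆ₐ[ℂ] A) (s : A),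
  FTS τ → star s = s → Gen π ρ s →
  (∀ (π' : Q →⋆ₐ[ℂ] A) (s' : A), Law τ (vl π ρ s) (vl π' ρ s') → star s' = s' →
    Gen π' ρ s' → Stg τ π' ρ s') → ∀ ε : ℝ, 0 < ε →
  ∃ σ : Q →⋆ₐ[ℂ] A, (∀ x, ‖σ x - π x‖ ≤ ε * ‖π x‖) ∧ (∀ w : List (Lt Q R), (∀ z ∈ w, z.isS = false) →
    τ (ev (vl σ ρ 0) w) = τ (ev (vl π ρ 0) w)) ∧ Gen0 σ ρ

open Classical in
/-- from the limit to a reduced free product, explicit -/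
def S_ABS4E : Prop := ∀ (J : Type) (D : J → Type) [∀ j, CStarAlgebra (D j)] (t : ∀ j, D j → ℂ)
  (i0 : J) (A : Type) [CStarAlgebra A] (τ : A →ₗ[ℂ] ℂ)
  (e : ∀ j, D j →⋆ₐ[ℂ] A) (f : C(unitInterval, ℂ) →⋆ₐ[ℂ] A) (s : A), RFP1 D t τ e f →
  Sys τ (e i0) (RR e i0).subtype s → ∀ σ : D i0 →⋆ₐ[ℂ] A,
  (∀ w : List (Lt (D i0) (RR e i0)), (∀ z ∈ w, z.isS = false) →
    τ (ev (vl σ (RR e i0).subtype 0) w) = τ (ev (vl (e i0) (RR e i0).subtype 0) w)) →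
  Gen0 σ (RR e i0).subtype → RFP D t τ (Function.update e i0 σ)

open Classical in
/-- the absorption theorem with closeness -/
def S_ABSE : Prop := ∀ (J : Type) (D : J → Type) [∀ j, CStarAlgebra (D j)] (t : ∀ j, D j → ℂ)
  (i0 i1 : J), i0 ≠ i1 → ∀ (c0 : C(unitInterval, ℂ) →⋆ₐ[ℂ] D i0) (c1 : C(unitInterval, ℂ) →⋆ₐ[ℂ] D i1),
  (∀ x, t i0 (c0 x) = leb x) → (∀ x, t i1 (c1 x) = leb x) →
  ∀ (A : Type) [CStarAlgebra A] [TopologicalSpace.SeparableSpace A] (τ : A →ₗ[ℂ] ℂ)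
  (e : ∀ j, D j →⋆ₐ[ℂ] A) (f : C(unitInterval, ℂ) →⋆ₐ[ℂ] A), RFP1 D t τ e f →
  ∀ ε : ℝ, 0 < ε → ∃ σ : D i0 →⋆ₐ[ℂ] A, (∀ x, ‖σ x - e i0 x‖ ≤ ε * ‖x‖) ∧
    RFP D t τ (Function.update e i0 σ)

end Pool.Agent.H923R2.FP
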