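import Pool.Agent.H923R2.FZ.Stubs2

/-! Statements of the tasks, wave 3: existence of reduced free products. -/

set_option autoImplicit false

open scoped ComplexConjugate

noncomputable section

namespace Pool.Agent.H923R2.FZ

open Pool.Agent.H923R2.FP

/-- `ℓ²(X)` -/
abbrev l2 (X : Type) : Type := lp (fun _ : X => ℂ) 2

open Classical in
/-- the unit vector `δ_x` -/
def dl2 {X : Type} (x : X) : l2 X := lp.single 2 x (1 : ℂ)

/-- GNS representation on `ℓ²(Option I)` with cyclic vector `δ_none` -/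
def S_EXG : Prop := ∀ (D : Type) [CStarAlgebra D] (t : D →ₗ[ℂ] ℂ), FTS t →
  ∃ (I : Type) (lam : D →⋆ₐ[ℂ] (l2 (Option I) →L[ℂ] l2 (Option I))),
    (∀ x, inner ℂ (dl2 (none : Option I)) (lam x (dl2 none)) = t x) ∧
    ∀ ξ : l2 (Option I), (∀ x, inner ℂ ξ (lam x (dl2 none)) = 0) → ξ = 0

open Classical in
/-- amplification -/
def S_AMP : Prop := ∀ X Y : Type, ∃ Θ : (l2 X →L[ℂ] l2 X) →⋆ₐ[ℂ] (l2 (X × Y) →L[ℂ] l2 (X × Y)),
  ∀ (T : l2 X →L[ℂ] l2 X) (x x' : X) (y y' : Y),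
    inner ℂ (dl2 (x, y)) (Θ T (dl2 (x', y'))) =
      if y = y' then inner ℂ (dl2 x) (T (dl2 x')) else 0

section words

variable {K : Type} (I : K → Type)

/-- reduced words -/
def Wd : Type := {l : List (Σ k, I k) // l.IsChain fun a b => a.1 ≠ b.1}

/-- the empty word -/
def Wd.nil : Wd I := ⟨[], List.isChain_nil⟩

variable {I}

open Classical in
/-- the head of a word, if it belongs to `k` -/
def Wd.hd (k : K) (w : Wd I) : Option (I k) :=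
  match w.1 with
  | [] => none
  | a :: _ => if h : a.1 = k then some (h ▸ a.2) else none

open Classical in
/-- the word without its head, if the head belongs to `k` -/
def Wd.tl (k : K) (w : Wd I) : Wd I :=
  match w with
  | ⟨[], _⟩ => ⟨[], List.isChain_nil⟩
  | ⟨a :: l, h⟩ => if a.1 = k then ⟨l, h.tail⟩ else ⟨a :: l, h⟩

end words

open Classical in
/-- the operators on `ℓ²(words)` -/
def S_EXL : Prop := ∀ (K : Type) (D : K → Type) (_ : ∀ k, CStarAlgebra (D k)) (I : K → Type)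
  (lam : ∀ k, D k →⋆ₐ[ℂ] (l2 (Option (I k)) →L[ℂ] l2 (Option (I k)))),
  ∃ Lam : ∀ k, D k →⋆ₐ[ℂ] (l2 (Wd I) →L[ℂ] l2 (Wd I)), ∀ (k : K) (x : D k) (w w' : Wd I),
    inner ℂ (dl2 w) (Lam k x (dl2 w')) =
      if w.tl k = w'.tl k then inner ℂ (dl2 (w.hd k)) (lam k x (dl2 (w'.hd k))) else 0

open Classical in
/-- freeness of the vacuum state -/
def S_EXF : Prop := ∀ (K : Type) (D : K → Type) (_ : ∀ k, CStarAlgebra (D k)) (I : K → Type)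
  (t : ∀ k, D k →ₗ[ℂ] ℂ)
  (lam : ∀ k, D k →⋆ₐ[ℂ] (l2 (Option (I k)) →L[ℂ] l2 (Option (I k))))
  (Lam : ∀ k, D k →⋆ₐ[ℂ] (l2 (Wd I) →L[ℂ] l2 (Wd I))),
  (∀ k x, inner ℂ (dl2 (none : Option (I k))) (lam k x (dl2 none)) = t k x) →
  (∀ (k : K) (x : D k) (w w' : Wd I), inner ℂ (dl2 w) (Lam k x (dl2 w')) =
      if w.tl k = w'.tl k then inner ℂ (dl2 (w.hd k)) (lam k x (dl2 (w'.hd k))) else 0) →
  (∀ k x, inner ℂ (dl2 (Wd.nil I)) (Lam k x (dl2 (Wd.nil I))) = t k x) ∧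
  ∀ l : List (Σ k, D k), l ≠ [] → l.IsChain (fun a b => a.1 ≠ b.1) → (∀ z ∈ l, t z.1 z.2 = 0) →
    inner ℂ (dl2 (Wd.nil I)) ((l.map fun z => Lam z.1 z.2).prod (dl2 (Wd.nil I))) = 0

open Classical in
/-- the vacuum vector is cyclic -/
def S_EXC : Prop := ∀ (K : Type) (D : K → Type) (_ : ∀ k, CStarAlgebra (D k)) (I : K → Type)
  (lam : ∀ k, D k →⋆ₐ[ℂ] (l2 (Option (I k)) →L[ℂ] l2 (Option (I k))))
  (Lam : ∀ k, D k →⋆ₐ[ℂ] (l2 (Wd I) →L[ℂ] l2 (Wd I))),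
  (∀ k (ξ : l2 (Option (I k))), (∀ x, inner ℂ ξ (lam k x (dl2 none)) = 0) → ξ = 0) →
  (∀ (k : K) (x : D k) (w w' : Wd I), inner ℂ (dl2 w) (Lam k x (dl2 w')) =
      if w.tl k = w'.tl k then inner ℂ (dl2 (w.hd k)) (lam k x (dl2 (w'.hd k))) else 0) →
  ∀ (ξ : l2 (Wd I)) (ε : ℝ), 0 < ε →
    ∃ y ∈ StarAlgebra.adjoin ℂ (⋃ k, Set.range (Lam k)), ‖ξ - y (dl2 (Wd.nil I))‖ < ε

/-- a state is tracial on the algebra generated by free algebras on which it is tracial -/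
def S_TRC : Prop := ∀ (A : Type) [Ring A] [StarRing A] [Algebra ℂ A] [StarModule ℂ A]
  (τ : A →ₗ[ℂ] ℂ), τ 1 = 1 →
  ∀ (K : Type) (S : K → StarSubalgebra ℂ A),
  (∀ w : List (K × A), w ≠ [] → (∀ z ∈ w, z.2 ∈ S z.1 ∧ τ z.2 = 0) →
    w.IsChain (fun x y => x.1 ≠ y.1) → τ ((w.map Prod.snd).prod) = 0) →
  (∀ k, ∀ x ∈ S k, ∀ y ∈ S k, τ (x * y) = τ (y * x)) →
  ∀ x ∈ ⨆ k, S k, ∀ y ∈ ⨆ k, S k, τ (x * y) = τ (y * x)

end Pool.Agent.H923R2.FZ
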