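import Pool.Agent.H923R2.FZ.JS

/-! Stone–Weierstrass for subalgebras of the dimension drop algebra (helper844). -/

set_option autoImplicit false

open scoped ComplexConjugate ComplexOrder Kronecker Matrix.Norms.L2Operator

noncomputable section

namespace Pool.Agent.H923R2.FZ

open Polynomial in
theorem sw_aeval (p q : ℕ)
    (E : StarSubalgebra ℂ C(unitInterval, Matrix (Fin p × Fin q) (Fin p × Fin q) ℂ))
    (h : idf p q ∈ E) (P : ℂ[X]) :
    ∃ g ∈ E, ∀ x : unitInterval, g x =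
      (P.eval ((x : ℝ) : ℂ)) • (1 : Matrix (Fin p × Fin q) (Fin p × Fin q) ℂ) := by
  refine ⟨aeval (idf p q) P, ?_, fun x => ?_⟩
  · have h1 : aeval (idf p q) P ∈ Algebra.adjoin ℂ {idf p q} := aeval_mem_adjoin_singleton ℂ _
    exact Algebra.adjoin_le (S := E.toSubalgebra) (Set.singleton_subset_iff.2 h) h1
  · induction P using Polynomial.induction_on' with
    | add P Q hP hQ =>
      rw [map_add, ContinuousMap.add_apply, hP, hQ, eval_add, add_smul]
    | monomial n a =>
      rw [aeval_monomial, ContinuousMap.mul_apply, ContinuousMap.pow_apply, eval_monomial]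
      have h2 : (idf p q) x = ((x : ℝ) : ℂ) •
        (1 : Matrix (Fin p × Fin q) (Fin p × Fin q) ℂ) := rfl
      have h3 : (algebraMap ℂ C(unitInterval, Matrix (Fin p × Fin q) (Fin p × Fin q) ℂ) a) x =
        a • (1 : Matrix (Fin p × Fin q) (Fin p × Fin q) ℂ) := by
        rw [Algebra.algebraMap_eq_smul_one, ContinuousMap.smul_apply, ContinuousMap.one_apply]
      rw [h2, h3, _root_.smul_pow, one_pow, smul_mul_assoc, one_mul, smul_smul]

theorem sw_scal (p q : ℕ)
    (E : StarSubalgebra ℂ C(unitInterval, Matrix (Fin p × Fin q) (Fin p × Fin q) ℂ))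
    (h : idf p q ∈ E) (χ : C(unitInterval, ℝ))
    (X : C(unitInterval, Matrix (Fin p × Fin q) (Fin p × Fin q) ℂ))
    (hX : ∀ x, X x = ((χ x : ℝ) : ℂ) • (1 : Matrix (Fin p × Fin q) (Fin p × Fin q) ℂ)) :
    X ∈ closure (E : Set C(unitInterval, Matrix (Fin p × Fin q) (Fin p × Fin q) ℂ)) := by
  rw [Metric.mem_closure_iff]
  intro ε hε
  set N : ℝ := ‖(1 : Matrix (Fin p × Fin q) (Fin p × Fin q) ℂ)‖ with hN
  have hN0 : 0 ≤ N := norm_nonneg _
  obtain ⟨P, hP⟩ := exists_polynomial_near_continuousMap 0 1 χ (ε / 2 / (N + 1)) (by positivity)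
  obtain ⟨g, hg, hgx⟩ := sw_aeval p q E h (P.map (algebraMap ℝ ℂ))
  refine ⟨g, hg, ?_⟩
  rw [dist_eq_norm]
  have h1 : ‖X - g‖ ≤ ε / 2 := by
    rw [ContinuousMap.norm_le _ (by positivity)]
    intro x
    rw [ContinuousMap.sub_apply, hX, hgx, ← sub_smul, norm_smul]
    have h2 : ((P.map (algebraMap ℝ ℂ)).eval ((x : ℝ) : ℂ)) = ((P.eval (x : ℝ) : ℝ) : ℂ) := by
      rw [Polynomial.eval_map]
      exact Polynomial.eval₂_at_apply (algebraMap ℝ ℂ) (x : ℝ)
    rw [h2, ← Complex.ofReal_sub, Complex.norm_real]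
    have h3 : ‖χ x - P.eval (x : ℝ)‖ ≤ ε / 2 / (N + 1) := by
      have h4 := (ContinuousMap.norm_coe_le_norm (P.toContinuousMapOn (Set.Icc 0 1) - χ) x).trans
        hP.le
      rw [ContinuousMap.sub_apply] at h4
      rw [norm_sub_rev]
      exact h4
    calc ‖χ x - P.eval (x : ℝ)‖ * N ≤ (ε / 2 / (N + 1)) * N :=
          mul_le_mul_of_nonneg_right h3 hN0
      _ ≤ (ε / 2 / (N + 1)) * (N + 1) :=
          mul_le_mul_of_nonneg_left (by linarith) (by positivity)
      _ = ε / 2 := by field_simp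
  linarith

theorem t_SW : S_SW := by
  classical
  intro p q E hid hE f hf ε hε
  choose g hgE hgx using hE f hf
  set U : unitInterval → Set unitInterval := fun x => {y | ‖f y - g x y‖ < ε / 2} with hU
  have hUo : ∀ x, IsOpen (U x) := by
    intro x
    exact isOpen_lt (by fun_prop) continuous_const
  have hUm : ∀ x, x ∈ U x := by
    intro x
    change ‖f x - g x x‖ < ε / 2
    rw [hgx, sub_self, norm_zero]
    positivity
  obtain ⟨t, ht⟩ := CompactSpace.elim_nhds_subcover U (fun x => (hUo x).mem_nhds (hUm x))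
  obtain ⟨χ, hχ⟩ := PartitionOfUnity.exists_isSubordinate (s := (Set.univ : Set unitInterval))
    isClosed_univ (fun i : t => U i) (fun i => hUo i) (by
      intro y _
      have : y ∈ ⋃ x ∈ t, U x := by rw [ht]; trivial
      obtain ⟨x, hx, hy⟩ := Set.mem_iUnion₂.1 this
      exact Set.mem_iUnion.2 ⟨⟨x, hx⟩, hy⟩)
  have hsum : ∀ y, ∑ i, χ i y = 1 := by
    intro y
    rw [← finsum_eq_sum_of_fintype]
    exact χ.sum_eq_one (Set.mem_univ y)
  have hsup : ∀ i y, χ i y ≠ 0 → y ∈ U i := by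
    intro i y h
    exact hχ i (subset_tsupport _ h)
  let X : t → C(unitInterval, Matrix (Fin p × Fin q) (Fin p × Fin q) ℂ) := fun i =>
    ⟨fun x => ((χ i x : ℝ) : ℂ) • (1 : Matrix (Fin p × Fin q) (Fin p × Fin q) ℂ), by
      have := (χ i).continuous
      fun_prop⟩
  have hXx : ∀ i x, X i x = ((χ i x : ℝ) : ℂ) •
    (1 : Matrix (Fin p × Fin q) (Fin p × Fin q) ℂ) := fun i x => rfl
  have hXE : ∀ i, X i ∈ E.topologicalClosure := fun i => sw_scal p q E hid (χ i) (X i) (hXx i)
  have hwE : ∑ i, X i * g i ∈ E.topologicalClosure :=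
    sum_mem fun i _ => mul_mem (hXE i) (subset_closure (hgE i))
  have hw : ‖f - ∑ i, X i * g i‖ ≤ ε / 2 := by
    rw [ContinuousMap.norm_le _ (by positivity)]
    intro y
    have h1 : (f - ∑ i, X i * g i) y = ∑ i, ((χ i y : ℝ) : ℂ) • (f y - g i y) := by
      rw [ContinuousMap.sub_apply, ContinuousMap.sum_apply]
      simp_rw [smul_sub]
      rw [Finset.sum_sub_distrib, ← Finset.sum_smul, ← Complex.ofReal_sum, hsum,
        Complex.ofReal_one, one_smul]
      congr 1
      refine Finset.sum_congr rfl fun i _ => ?_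
      rw [ContinuousMap.mul_apply, hXx, smul_mul_assoc, one_mul]
    rw [h1]
    calc ‖∑ i, ((χ i y : ℝ) : ℂ) • (f y - g i y)‖
        ≤ ∑ i, ‖((χ i y : ℝ) : ℂ) • (f y - g i y)‖ := norm_sum_le _ _
      _ ≤ ∑ i, χ i y * (ε / 2) := by
          refine Finset.sum_le_sum fun i _ => ?_
          rw [norm_smul, Complex.norm_real, Real.norm_of_nonneg (χ.nonneg i y)]
          by_cases h : χ i y = 0
          · rw [h, zero_mul, zero_mul]
          · exact mul_le_mul_of_nonneg_left (hsup i y h).le (χ.nonneg i y)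
      _ = ε / 2 := by rw [← Finset.sum_mul, hsum, one_mul]
  obtain ⟨g', hg', hd⟩ := Metric.mem_closure_iff.1
    (show ∑ i, X i * g i ∈
      closure (E : Set C(unitInterval, Matrix (Fin p × Fin q) (Fin p × Fin q) ℂ)) from hwE)
    (ε / 2) (by positivity)
  refine ⟨g', hg', ?_⟩
  rw [dist_eq_norm] at hd
  calc ‖f - g'‖ = ‖(f - ∑ i, X i * g i) + (∑ i, X i * g i - g')‖ := by
        rw [sub_add_sub_cancel]
    _ ≤ ‖f - ∑ i, X i * g i‖ + ‖∑ i, X i * g i - g'‖ := norm_add_le _ _
    _ < ε := by linarith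

end Pool.Agent.H923R2.FZ
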